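import Pool.Agent.L5helper98.CG.Defs2

/-!
# TILT: the change of measure (for helper98, MP_e22585_pr)

The finite dimensional change of measure is passed to the integrals over `[0,1)` by random sampling:
for independent uniform points `u_i` the means `(1/N) ∑ w(u_i) e^{ω(u_i)}` converge to the mass, by
the strong law of large numbers.
-/

set_option autoImplicit false

open MeasureTheory ProbabilityTheory Filter Topology Set
open scoped ENNReal BoundedContinuousFunction NNReal RealInnerProductSpace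

namespace Pool.Agent.L5helper15.CG

open Pool.Agent.L5helper98.CG

noncomputable section

variable {c : Bool} {r : ℝ → ℝ} {μ ε : ℝ} {Ω : Type} [MeasurableSpace Ω] {P : Measure Ω}
    {ω : ℝ → Ω → ℝ}

theorem dst_self (c : Bool) (s : ℝ) : dst c s s = 0 := by
  unfold dst
  split_ifs <;> simp

theorem om_meas (hF : Field c r μ ε P ω) (t : ℝ) : Measurable (ω t) :=
  hF.meas.comp (measurable_const.prodMk measurable_id)

theorem om_gauss (hF : Field c r μ ε P ω) (n : ℕ) (t : Fin n → ℝ)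
    (ht : ∀ i, t i ∈ Ico (0 : ℝ) 1) : HasGaussianLaw (fun x => fun i : Fin n => ω (t i) x) P := by
  have h1 := (hF.gauss.comp_right (fun i : Fin n => (⟨t i, ht i⟩ : Ico (0 : ℝ) 1))).hasGaussianLaw
    Finset.univ
  let L : ({i // i ∈ (Finset.univ : Finset (Fin n))} → ℝ) →L[ℝ] (Fin n → ℝ) :=
    { toFun := fun x i => x ⟨i, Finset.mem_univ i⟩
      map_add' := fun x y => rfl
      map_smul' := fun m x => rfl
      cont := by fun_prop }
  exact h1.map L

/-- the mean -/
theorem om_mean (hF : Field c r μ ε P ω) [IsProbabilityMeasure P] {t : ℝ} (ht : t ∈ Ico (0 : ℝ) 1) :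
    ∫ x, ω t x ∂P = -(cv r μ ε 0) / 2 := by
  rw [hF.mean t ht, ← covariance_self (om_meas hF t).aemeasurable, hF.cov t ht t ht, dst_self]

theorem om_law (hF : Field c r μ ε P ω) [IsProbabilityMeasure P] (hpsd : St_FPSD) (n : ℕ)
    (t : Fin n → ℝ) (ht : ∀ i, t i ∈ Ico (0 : ℝ) 1) (C : Matrix (Fin n) (Fin n) ℝ)
    (hC : ∀ i j, C i j = cv r μ ε (dst c (t i) (t j))) :
    P.map (fun x => (WithLp.toLp 2 (fun i => ω (t i) x) : EuclideanSpace ℝ (Fin n))) =
      multivariateGaussian (WithLp.toLp 2 fun _ => -(cv r μ ε 0) / 2) C := by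
  have hS : C.PosSemidef := by
    have h0 : C = fun i j => cv r μ ε (dst c (t i) (t j)) := by
      ext i j
      exact hC i j
    rw [h0]
    exact hpsd c r μ ε Ω P ω hF n t ht
  have hZm : Measurable (fun x => (WithLp.toLp 2 (fun i => ω (t i) x) : EuclideanSpace ℝ (Fin n))) := by
    have : Measurable (fun x => (fun i : Fin n => ω (t i) x)) :=
      measurable_pi_lambda _ fun i => om_meas hF _
    exact (MeasurableEquiv.toLp 2 (Fin n → ℝ)).measurable.comp this
  have hZ : HasGaussianLaw (fun x => (WithLp.toLp 2 (fun i => ω (t i) x) : EuclideanSpace ℝ (Fin n))) P :=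
    (om_gauss hF n t ht).toLp_pi 2
  have := hZ.isGaussian_map
  apply IsGaussian.ext
  · simp only [id_eq, integral_id_multivariateGaussian]
    ext i
    have h1 : (∫ z, z ∂(P.map (fun x => (WithLp.toLp 2 (fun i => ω (t i) x) :
        EuclideanSpace ℝ (Fin n))))) i = ∫ z, z i ∂(P.map (fun x => (WithLp.toLp 2
        (fun i => ω (t i) x) : EuclideanSpace ℝ (Fin n)))) := by
      have h2 := (EuclideanSpace.proj (𝕜 := ℝ) i : EuclideanSpace ℝ (Fin n) →L[ℝ] ℝ).integral_comp_comm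
        (IsGaussian.integrable_id (μ := P.map (fun x => (WithLp.toLp 2
        (fun i => ω (t i) x) : EuclideanSpace ℝ (Fin n)))))
      simpa using h2.symm
    rw [h1, integral_map hZm.aemeasurable (by fun_prop)]
    exact om_mean hF (ht i)
  · rw [← ContinuousLinearMap.toBilinForm_inj]
    refine LinearMap.BilinForm.ext_basis (EuclideanSpace.basisFun (Fin n) ℝ).toBasis fun i j ↦ ?_
    rw [ContinuousLinearMap.toBilinForm_apply, ContinuousLinearMap.toBilinForm_apply,
      covarianceBilin_apply_eq_cov IsGaussian.memLp_two_id, covariance_map]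
    · have h3 : ∀ i : Fin n, (fun u ↦ ⟪(EuclideanSpace.basisFun (Fin n) ℝ).toBasis i, u⟫) ∘
          (fun x => (WithLp.toLp 2 (fun i => ω (t i) x) : EuclideanSpace ℝ (Fin n))) = ω (t i) := by
        intro i
        ext x
        simp [PiLp.inner_apply]
      rw [h3, h3, hF.cov _ (ht i) _ (ht j), covarianceBilin_multivariateGaussian hS]
      simp [hC]
    any_goals exact Measurable.aestronglyMeasurable (by fun_prop)
    exact hZm.aemeasurable

/-- expectations of functions of finitely many values -/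
theorem om_lint (hF : Field c r μ ε P ω) [IsProbabilityMeasure P] (hpsd : St_FPSD) (n : ℕ)
    (t : Fin n → ℝ) (ht : ∀ i, t i ∈ Ico (0 : ℝ) 1) (C : Matrix (Fin n) (Fin n) ℝ)
    (hC : ∀ i j, C i j = cv r μ ε (dst c (t i) (t j))) (H : (Fin n → ℝ) → ℝ≥0∞)
    (hH : Measurable H) :
    ∫⁻ x, H (fun i => ω (t i) x) ∂P =
      ∫⁻ z : EuclideanSpace ℝ (Fin n), H (fun i => z i + -(cv r μ ε 0) / 2)
        ∂(multivariateGaussian 0 C) := by
  have hZm : Measurable (fun x => (WithLp.toLp 2 (fun i => ω (t i) x) : EuclideanSpace ℝ (Fin n))) := by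
    have : Measurable (fun x => (fun i : Fin n => ω (t i) x)) :=
      measurable_pi_lambda _ fun i => om_meas hF _
    exact (MeasurableEquiv.toLp 2 (Fin n → ℝ)).measurable.comp this
  have hof : Measurable (fun z : EuclideanSpace ℝ (Fin n) => (fun i => z i : Fin n → ℝ)) :=
    measurable_pi_lambda _ fun i => by fun_prop
  have hHm : Measurable (fun z : EuclideanSpace ℝ (Fin n) => H (fun i => z i)) := hH.comp hof
  have hHm' : Measurable (fun z : EuclideanSpace ℝ (Fin n) =>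
      H (fun i => z i + -(cv r μ ε 0) / 2)) :=
    hH.comp (measurable_pi_lambda _ fun i => by fun_prop)
  have h1 : ∫⁻ x, H (fun i => ω (t i) x) ∂P =
      ∫⁻ z : EuclideanSpace ℝ (Fin n), H (fun i => z i) ∂(P.map (fun x =>
        (WithLp.toLp 2 (fun i => ω (t i) x) : EuclideanSpace ℝ (Fin n)))) := by
    rw [lintegral_map hHm hZm]
  rw [h1, om_law hF hpsd n t ht C hC]
  unfold multivariateGaussian
  rw [lintegral_map hHm (by fun_prop), lintegral_map hHm' (by fun_prop)]
  refine lintegral_congr fun z => ?_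
  congr 1
  ext i
  simp only [PiLp.add_apply, zero_add]
  ring

/-- the finite dimensional change of measure for the field -/
theorem fin_tilt (hT : St_TILT1) (hF : Field c r μ ε P ω) [IsProbabilityMeasure P]
    (hpsd : St_FPSD) (n : ℕ) (u : Fin n → ℝ) (hu : ∀ i, u i ∈ Ico (0 : ℝ) 1) (q : ℝ)
    (G : (Fin n → ℝ) → ℝ≥0∞) (hG : Measurable G) :
    ∫⁻ x, ENNReal.ofReal (Real.exp (-(q * ω 0 x))) * G (fun i => ω (u i) x) ∂P =
      ENNReal.ofReal (Real.exp (q * (q + 1) / 2 * cv r μ ε 0)) *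
        ∫⁻ x, G (fun i => ω (u i) x + -(q * cv r μ ε (dst c (u i) 0))) ∂P := by
  set V : ℝ := cv r μ ε 0 with hV
  set t : Fin (n + 1) → ℝ := Fin.cons 0 u with htdef
  have ht : ∀ i, t i ∈ Ico (0 : ℝ) 1 := by
    intro i
    refine Fin.cases ?_ (fun j => ?_) i
    · simp [htdef]
    · simpa [htdef] using hu j
  set C : Matrix (Fin (n + 1)) (Fin (n + 1)) ℝ := fun i j => cv r μ ε (dst c (t i) (t j)) with hCdef
  have hC : ∀ i j, C i j = cv r μ ε (dst c (t i) (t j)) := fun _ _ => rfl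
  have hS : C.PosSemidef := hpsd c r μ ε Ω P ω hF (n + 1) t ht
  have hC00 : C 0 0 = V := by
    rw [hC, dst_self]
  have hCi : ∀ i : Fin n, C i.succ 0 = cv r μ ε (dst c (u i) 0) := by
    intro i
    rw [hC]
    simp [htdef]
  have hsucc : Measurable (fun y : Fin (n + 1) → ℝ => (fun i : Fin n => y i.succ)) := by fun_prop
  -- left side
  have hL := om_lint hF hpsd (n + 1) t ht C hC
    (fun y => ENNReal.ofReal (Real.exp (-(q * y 0))) * G (fun i => y i.succ))
    (by
      refine Measurable.mul (by fun_prop) (hG.comp hsucc))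
  have hR := om_lint hF hpsd (n + 1) t ht C hC
    (fun y => G (fun i => y i.succ + -(q * cv r μ ε (dst c (u i) 0))))
    (hG.comp (by fun_prop))
  have ht0 : t 0 = 0 := by simp [htdef]
  have hts : ∀ i : Fin n, t i.succ = u i := fun i => by simp [htdef]
  simp only [ht0, hts, ← hV] at hL hR
  rw [hL, hR]
  have hT' := hT (n + 1) C hS 0 (-q) (fun y => G (fun i => y i.succ + -V / 2))
    (hG.comp (by fun_prop))
  simp only [hC00, hCi] at hT'
  have e1 : ∀ z : EuclideanSpace ℝ (Fin (n + 1)),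
      ENNReal.ofReal (Real.exp (-(q * (z 0 + -V / 2)))) * G (fun i => z i.succ + -V / 2) =
      ENNReal.ofReal (Real.exp (q * V / 2)) * (ENNReal.ofReal (Real.exp (-q * z 0)) *
        G (fun i => z i.succ + -V / 2)) := by
    intro z
    rw [← mul_assoc, ← ENNReal.ofReal_mul (Real.exp_pos _).le, ← Real.exp_add]
    congr 3
    ring
  simp only [e1]
  rw [lintegral_const_mul' _ _ ENNReal.ofReal_ne_top, hT', ← mul_assoc,
    ← ENNReal.ofReal_mul (Real.exp_pos _).le, ← Real.exp_add]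
  congr 1
  · congr 2
    ring
  · refine lintegral_congr fun z => ?_
    congr 1
    ext i
    ring

/-! ### Random sampling -/

/-- strong law of large numbers for independent points with the law `ν` -/
theorem slln {ν : Measure ℝ} [IsProbabilityMeasure ν] (h : ℝ → ℝ) (hm : Measurable h)
    (hi : Integrable h ν) : ∀ᵐ u ∂(Measure.infinitePi (fun _ : ℕ => ν)),
      Tendsto (fun N : ℕ => (∑ i ∈ Finset.range N, h (u i)) / N) atTop (𝓝 (∫ v, h v ∂ν)) := by
  have hmp : ∀ i : ℕ, MeasurePreserving (Function.eval i)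
      (Measure.infinitePi (fun _ : ℕ => ν)) ν := fun i =>
    measurePreserving_eval_infinitePi (fun _ : ℕ => ν) i
  have hmap : ∀ i : ℕ, (Measure.infinitePi (fun _ : ℕ => ν)).map (fun u : ℕ → ℝ => h (u i)) =
      ν.map h := by
    intro i
    have h1 := Measure.map_map (μ := Measure.infinitePi (fun _ : ℕ => ν)) hm
      (hmp i).measurable
    rw [(hmp i).map_eq] at h1
    exact h1.symm
  have hme : ∀ i : ℕ, Measurable (fun u : ℕ → ℝ => h (u i)) := fun i =>
    hm.comp (measurable_pi_apply i)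
  have h0 : Integrable (fun u : ℕ → ℝ => h (u 0)) (Measure.infinitePi (fun _ : ℕ => ν)) :=
    (hmp 0).integrable_comp_of_integrable hi
  have hind : iIndepFun (fun (i : ℕ) (u : ℕ → ℝ) => h (u i))
      (Measure.infinitePi (fun _ : ℕ => ν)) :=
    iIndepFun_infinitePi (P := fun _ : ℕ => ν) (X := fun _ => h) (fun _ => hm)
  have hE : ∫ u, h (u 0) ∂(Measure.infinitePi (fun _ : ℕ => ν)) = ∫ v, h v ∂ν := by
    have h1 : ∫ y, y ∂((Measure.infinitePi (fun _ : ℕ => ν)).map (fun u : ℕ → ℝ => h (u 0))) =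
        ∫ u, h (u 0) ∂(Measure.infinitePi (fun _ : ℕ => ν)) :=
      integral_map (hme 0).aemeasurable aestronglyMeasurable_id
    have h2 : ∫ y, y ∂(ν.map h) = ∫ v, h v ∂ν :=
      integral_map hm.aemeasurable aestronglyMeasurable_id
    rw [← h1, ← h2, hmap 0]
  have key := strong_law_ae_real (μ := Measure.infinitePi (fun _ : ℕ => ν))
    (fun (i : ℕ) (u : ℕ → ℝ) => h (u i)) h0
    (fun i j hij => hind.indepFun hij)
    (fun i => ⟨(hme i).aemeasurable, (hme 0).aemeasurable, by rw [hmap i, hmap 0]⟩)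
  rw [hE] at key
  exact key

/-- random sampling: for a.e. path `x` the means over independent uniform points converge to the
mass (slln); two times dominated convergence. -/
theorem sampling {Ω : Type} [MeasurableSpace Ω] {P : Measure Ω} [IsProbabilityMeasure P]
    (ω : ℝ → Ω → ℝ) (hm : Measurable (fun p : ℝ × Ω => ω p.1 p.2)) (w : ℝ → ℝ) (hw : Measurable w)
    (hi : ∀ᵐ x ∂P, IntegrableOn (fun u => w u * Real.exp (ω u x)) (Ico 0 1))
    (g : Ω → ℝ≥0∞) (hg : Measurable g) (hgi : ∫⁻ x, g x ∂P ≠ ∞) (f : ℝ →ᵇ ℝ≥0) :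
    Tendsto (fun N : ℕ => ∫⁻ x, g x * ∫⁻ u : ℕ → ℝ,
        (f ((∑ i ∈ Finset.range N, w (u i) * Real.exp (ω (u i) x)) / N) : ℝ≥0∞)
        ∂(Measure.infinitePi (fun _ : ℕ => (volume : Measure ℝ).restrict (Ico 0 1))) ∂P) atTop
      (𝓝 (∫⁻ x, g x * (f (mass w ω x) : ℝ≥0∞) ∂P)) := by
  haveI : IsProbabilityMeasure ((volume : Measure ℝ).restrict (Ico (0 : ℝ) 1)) :=
    ⟨by simp⟩
  set ν : Measure ℝ := (volume : Measure ℝ).restrict (Ico (0 : ℝ) 1) with hν
  set U : Measure (ℕ → ℝ) := Measure.infinitePi (fun _ : ℕ => ν) with hU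
  haveI : IsProbabilityMeasure U := by rw [hU]; infer_instance
  have hmeasf : Measurable (fun y : ℝ => (f y : ℝ≥0∞)) :=
    (ENNReal.continuous_coe.comp f.continuous).measurable
  have hjoint : ∀ N : ℕ, Measurable (fun p : Ω × (ℕ → ℝ) =>
      (f ((∑ i ∈ Finset.range N, w (p.2 i) * Real.exp (ω (p.2 i) p.1)) / N) : ℝ≥0∞)) := by
    intro N
    refine hmeasf.comp (Measurable.div_const (Finset.measurable_sum _ fun i _ => ?_) _)
    have h2 : Measurable (fun p : Ω × (ℕ → ℝ) => p.2 i) :=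
      (measurable_pi_apply i).comp measurable_snd
    exact (hw.comp h2).mul (Real.measurable_exp.comp (hm.comp (h2.prodMk measurable_fst)))
  have hb : ∀ y : ℝ, (f y : ℝ≥0∞) ≤ ((nndist f 0 : ℝ≥0) : ℝ≥0∞) := fun y =>
    ENNReal.coe_le_coe.2 (BoundedContinuousFunction.NNReal.upper_bound f y)
  have inner : ∀ᵐ x ∂P, Tendsto (fun N : ℕ => ∫⁻ u : ℕ → ℝ,
      (f ((∑ i ∈ Finset.range N, w (u i) * Real.exp (ω (u i) x)) / N) : ℝ≥0∞) ∂U) atTop
      (𝓝 (f (mass w ω x) : ℝ≥0∞)) := by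
    filter_upwards [hi] with x hx
    have hmx : Measurable (fun u : ℝ => w u * Real.exp (ω u x)) :=
      hw.mul (Real.measurable_exp.comp (hm.comp (measurable_id.prodMk measurable_const)))
    have hs := slln (ν := ν) (fun u : ℝ => w u * Real.exp (ω u x)) hmx hx
    have hc : ∫⁻ _ : ℕ → ℝ, (f (mass w ω x) : ℝ≥0∞) ∂U = (f (mass w ω x) : ℝ≥0∞) := by
      rw [lintegral_const, measure_univ, mul_one]
    rw [← hc]
    refine tendsto_lintegral_of_dominated_convergence
      (fun _ => ((nndist f 0 : ℝ≥0) : ℝ≥0∞)) (fun N => ?_) (fun N => ?_) ?_ ?_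
    · exact (hjoint N).comp (measurable_const.prodMk measurable_id)
    · exact Eventually.of_forall fun u => hb _
    · rw [lintegral_const, measure_univ, mul_one]
      exact ENNReal.coe_ne_top
    · filter_upwards [hs] with u hu
      exact ((ENNReal.continuous_coe.comp f.continuous).tendsto _).comp hu
  refine tendsto_lintegral_of_dominated_convergence
    (fun x => g x * ((nndist f 0 : ℝ≥0) : ℝ≥0∞)) (fun N => ?_) (fun N => ?_) ?_ ?_
  · exact hg.mul (Measurable.lintegral_prod_right' (hjoint N))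
  · refine Eventually.of_forall fun x => ?_
    refine mul_le_mul_right ?_ _
    calc ∫⁻ u : ℕ → ℝ, (f ((∑ i ∈ Finset.range N, w (u i) * Real.exp (ω (u i) x)) / N) : ℝ≥0∞) ∂U
        ≤ ∫⁻ _ : ℕ → ℝ, ((nndist f 0 : ℝ≥0) : ℝ≥0∞) ∂U := lintegral_mono fun u => hb _
      _ = _ := by rw [lintegral_const, measure_univ, mul_one]
  · rw [lintegral_mul_const _ hg]
    exact ENNReal.mul_ne_top hgi ENNReal.coe_ne_top
  · filter_upwards [inner, ae_lt_top hg hgi] with x hx hgx
    exact ENNReal.Tendsto.const_mul hx (Or.inr hgx.ne)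

/-! ### A measurable version of the weight -/

/-- measurable version of the covariance as a function of the distance -/
def cvt (r : ℝ → ℝ) (μ ε d : ℝ) : ℝ :=
  if ε ≤ d then -(μ * Real.log ((Ioo (0 : ℝ) 1).indicator r d))
  else μ * (-Real.log (r ε) + (1 - d / ε) * (ε * deriv (fun t => Real.log (r t)) ε))

theorem cvt_meas (hr : ContinuousOn r (Ioo 0 1)) : Measurable (cvt r μ ε) := by
  classical
  have h1 : Measurable ((Ioo (0 : ℝ) 1).indicator r) := by
    rw [← Set.piecewise_eq_indicator]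
    exact hr.measurable_piecewise continuousOn_const measurableSet_Ioo
  unfold cvt
  refine Measurable.ite measurableSet_Ici ?_ (by fun_prop)
  exact ((Real.measurable_log.comp h1).const_mul μ).neg

theorem cvt_eq (hε : 0 < ε) {d : ℝ} (hd : d < 1) : cvt r μ ε d = cv r μ ε d := by
  unfold cvt cv
  split_ifs with h
  · rw [indicator_of_mem (show d ∈ Ioo (0 : ℝ) 1 from ⟨lt_of_lt_of_le hε h, hd⟩)]
  · rfl

theorem dst_zero_lt (c : Bool) {u : ℝ} (hu : u ∈ Ico (0 : ℝ) 1) : dst c u 0 < 1 := by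
  have h1 : |u - 0| < 1 := by
    rw [sub_zero, abs_of_nonneg hu.1]
    exact hu.2
  unfold dst
  split_ifs
  · exact lt_of_le_of_lt (min_le_left _ _) h1
  · exact h1

theorem dst_meas (c : Bool) : Measurable fun u : ℝ => dst c u 0 := by
  unfold dst
  cases c
  · simp only [Bool.false_eq_true, if_false]
    fun_prop
  · simp only [if_true]
    fun_prop

theorem cv_bd (hF : Field c r μ ε P ω) [IsProbabilityMeasure P] (hpsd : St_FPSD) {u : ℝ}
    (hu : u ∈ Ico (0 : ℝ) 1) : |cv r μ ε (dst c u 0)| ≤ cv r μ ε 0 := by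
  have ht : ∀ i, (![u, 0] : Fin 2 → ℝ) i ∈ Ico (0 : ℝ) 1 := by
    intro i
    fin_cases i
    · simpa using hu
    · simp
  have hS := hpsd c r μ ε Ω P ω hF 2 ![u, 0] ht
  have hsymm : dst c 0 u = dst c u 0 := by
    unfold dst
    rw [abs_sub_comm]
  have key : ∀ s : ℝ, 0 ≤ cv r μ ε 0 + s * cv r μ ε (dst c u 0) + s * (cv r μ ε (dst c u 0) +
      s * cv r μ ε 0) := by
    intro s
    have h1 := hS.dotProduct_mulVec_nonneg ![1, s]
    simp [Matrix.mulVec, dotProduct, Fin.sum_univ_two, dst_self, hsymm] at h1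
    linarith
  rw [abs_le]
  constructor
  · have := key 1
    linarith
  · have := key (-1)
    linarith

/-! ### The change of measure -/

/-- the change of measure for all measurable bounded weights -/
theorem tilt_gen (h1 : St_TILT1) (h2 : St_POSW) (h3 : St_FPSD) (c : Bool) (r : ℝ → ℝ) (μ ε : ℝ)
    (hadm : Adm c r) (hμ : 0 < μ) (hε : 0 < ε) (hε2 : ε < 1 / 2)
    (Ω : Type) [MeasurableSpace Ω] (P : Measure Ω) [IsProbabilityMeasure P] (ω : ℝ → Ω → ℝ)
    (hF : Field c r μ ε P ω) (φ : ℝ → ℝ) (hφ : Measurable φ) (hφ0 : ∀ u, 0 ≤ φ u)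
    (hφb : ∃ B : ℝ, ∀ u ∈ Icc (0 : ℝ) 1, ‖φ u‖ ≤ B) (q : ℝ) :
    ∫⁻ x, ENNReal.ofReal ((∫ u in Ico (0 : ℝ) 1, φ u * Real.exp (ω u x - ω 0 x)) ^ q) ∂P =
    ENNReal.ofReal (Real.exp (q * (q + 1) / 2 * cv r μ ε 0)) *
      ∫⁻ x, ENNReal.ofReal (mass (fun u => φ u * Real.exp (-(q * cv r μ ε (dst c u 0)))) ω x ^ q)
        ∂P := by
  obtain ⟨hint, hmm, -, -⟩ := h2 c r μ ε hadm hμ hε hε2 Ω P ω hF
  set ψ : ℝ → ℝ := (Ico (0 : ℝ) 1).indicator
    (fun u => φ u * Real.exp (-(q * cvt r μ ε (dst c u 0)))) with hψ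
  set K : ℝ≥0∞ := ENNReal.ofReal (Real.exp (q * (q + 1) / 2 * cv r μ ε 0)) with hK
  have hKtop : K ≠ ∞ := ENNReal.ofReal_ne_top
  have hcvt : Measurable fun u : ℝ => cvt r μ ε (dst c u 0) :=
    (cvt_meas hadm.smooth.continuousOn).comp (dst_meas c)
  have hψm : Measurable ψ := by
    refine Measurable.indicator ?_ measurableSet_Ico
    fun_prop
  have hψe : ∀ u ∈ Ico (0 : ℝ) 1, ψ u = φ u * Real.exp (-(q * cv r μ ε (dst c u 0))) := by
    intro u hu
    rw [hψ, indicator_of_mem hu, cvt_eq hε (dst_zero_lt c hu)]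
  obtain ⟨B, hB⟩ := hφb
  have hintw : ∀ w : ℝ → ℝ, Measurable w → (∃ B : ℝ, ∀ u ∈ Ico (0 : ℝ) 1, |w u| ≤ B) →
      ∀ᵐ x ∂P, IntegrableOn (fun u => w u * Real.exp (ω u x)) (Ico 0 1) := by
    rintro w hw ⟨B, hB⟩
    filter_upwards [hint] with x hx
    have hmx : Measurable fun u => ω u x := hF.meas.comp (measurable_id.prodMk measurable_const)
    refine (hx.const_mul B).mono' (by fun_prop) ?_
    refine ae_restrict_of_forall_mem measurableSet_Ico fun u hu => ?_
    rw [norm_mul, Real.norm_eq_abs, Real.norm_eq_abs, Real.abs_exp]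
    exact mul_le_mul_of_nonneg_right (hB u hu) (Real.exp_pos _).le
  have hiφ := hintw φ hφ ⟨B, fun u hu => hB u ⟨hu.1, hu.2.le⟩⟩
  have hiψ := hintw ψ hψm ⟨B * Real.exp (|q| * cv r μ ε 0), fun u hu => by
    rw [hψe u hu, abs_mul, Real.abs_exp]
    have hb := hB u ⟨hu.1, hu.2.le⟩
    rw [Real.norm_eq_abs] at hb
    have hb2 : -(q * cv r μ ε (dst c u 0)) ≤ |q| * cv r μ ε 0 := by
      refine (neg_le_abs _).trans ?_
      rw [abs_mul]
      exact mul_le_mul_of_nonneg_left (cv_bd hF h3 hu) (abs_nonneg _)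
    exact mul_le_mul hb (Real.exp_le_exp.2 hb2) (Real.exp_pos _).le ((abs_nonneg _).trans hb)⟩
  set g : Ω → ℝ≥0∞ := fun x => ENNReal.ofReal (Real.exp (-(q * ω 0 x))) with hgdef
  have hg : Measurable g := by
    have := om_meas hF 0
    fun_prop
  have hgi : ∫⁻ x, g x ∂P ≠ ∞ := by
    have h := fin_tilt h1 hF h3 0 (fun i => i.elim0) (fun i => i.elim0) q (fun _ => 1)
      measurable_const
    simp only [mul_one, lintegral_one, measure_univ] at h
    rw [hgdef, h]
    exact ENNReal.ofReal_ne_top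
  set ν : Measure ℝ := (volume : Measure ℝ).restrict (Ico 0 1) with hν
  have hνp : IsProbabilityMeasure ν := ⟨by simp [hν]⟩
  set Λ : Measure (ℕ → ℝ) := Measure.infinitePi (fun _ : ℕ => ν) with hΛ
  have hΛu : ∀ᵐ u ∂Λ, ∀ i : ℕ, u i ∈ Ico (0 : ℝ) 1 := by
    rw [ae_all_iff]
    intro i
    have h4 : ∀ᵐ v ∂ν, v ∈ Ico (0 : ℝ) 1 := ae_restrict_mem measurableSet_Ico
    exact (measurePreserving_eval_infinitePi (fun _ : ℕ => ν) i).quasiMeasurePreserving.ae h4
  have key : ∀ f : ℝ →ᵇ ℝ≥0, ∫⁻ x, g x * (f (mass φ ω x) : ℝ≥0∞) ∂P =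
      K * ∫⁻ x, (f (mass ψ ω x) : ℝ≥0∞) ∂P := by
    intro f
    have t1 := sampling ω hF.meas φ hφ hiφ g hg hgi f
    have t2 := sampling ω hF.meas ψ hψm hiψ (fun _ => 1) measurable_const (by simp) f
    simp only [one_mul] at t2
    have t3 := ENNReal.Tendsto.const_mul (a := K) t2 (Or.inr hKtop)
    refine tendsto_nhds_unique t1 (t3.congr fun N => ?_)
    have hfm : Measurable fun z : ℝ => (f z : ℝ≥0∞) :=
      measurable_coe_nnreal_ennreal.comp f.continuous.measurable
    have hSm : ∀ w : ℝ → ℝ, Measurable w → Measurable (fun p : Ω × (ℕ → ℝ) =>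
        (f ((∑ i ∈ Finset.range N, w (p.2 i) * Real.exp (ω (p.2 i) p.1)) / N) : ℝ≥0∞)) := by
      intro w hw
      refine hfm.comp (Measurable.div_const (Finset.measurable_sum _ fun i _ => ?_) _)
      have h5 : Measurable fun p : Ω × (ℕ → ℝ) => p.2 i := (measurable_pi_apply i).comp measurable_snd
      have h6 : Measurable fun p : Ω × (ℕ → ℝ) => ω (p.2 i) p.1 :=
        hF.meas.comp (h5.prodMk measurable_fst)
      exact (hw.comp h5).mul (Real.measurable_exp.comp h6)
    have e1 : ∀ x, g x * ∫⁻ u : ℕ → ℝ,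
        (f ((∑ i ∈ Finset.range N, φ (u i) * Real.exp (ω (u i) x)) / N) : ℝ≥0∞) ∂Λ =
        ∫⁻ u : ℕ → ℝ, g x *
          (f ((∑ i ∈ Finset.range N, φ (u i) * Real.exp (ω (u i) x)) / N) : ℝ≥0∞) ∂Λ := by
      intro x
      rw [lintegral_const_mul' _ _ ENNReal.ofReal_ne_top]
    have eA : ∫⁻ x, g x * ∫⁻ u : ℕ → ℝ,
        (f ((∑ i ∈ Finset.range N, φ (u i) * Real.exp (ω (u i) x)) / N) : ℝ≥0∞) ∂Λ ∂P =
        ∫⁻ u : ℕ → ℝ, ∫⁻ x, g x *
          (f ((∑ i ∈ Finset.range N, φ (u i) * Real.exp (ω (u i) x)) / N) : ℝ≥0∞) ∂P ∂Λ := by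
      rw [lintegral_congr e1]
      exact lintegral_lintegral_swap
        (((hg.comp measurable_fst).mul (hSm φ hφ)).aemeasurable)
    have eB : ∫⁻ x, ∫⁻ u : ℕ → ℝ,
        (f ((∑ i ∈ Finset.range N, ψ (u i) * Real.exp (ω (u i) x)) / N) : ℝ≥0∞) ∂Λ ∂P =
        ∫⁻ u : ℕ → ℝ, ∫⁻ x,
          (f ((∑ i ∈ Finset.range N, ψ (u i) * Real.exp (ω (u i) x)) / N) : ℝ≥0∞) ∂P ∂Λ :=
      lintegral_lintegral_swap ((hSm ψ hψm).aemeasurable)
    refine (congrArg (fun z => K * z) eB).trans (Eq.trans ?_ eA.symm)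
    rw [← lintegral_const_mul' _ _ hKtop]
    refine lintegral_congr_ae ?_
    filter_upwards [hΛu] with u hu
    have h7 := fin_tilt h1 hF h3 N (fun i : Fin N => u i) (fun i => hu i) q
      (fun y => (f ((∑ i : Fin N, φ (u i) * Real.exp (y i)) / N) : ℝ≥0∞))
      (hfm.comp (by fun_prop))
    have s1 : ∀ (w : ℝ → ℝ) (x : Ω), ∑ i ∈ Finset.range N, w (u i) * Real.exp (ω (u i) x) =
        ∑ i : Fin N, w (u i) * Real.exp (ω (u i) x) := fun w x => Finset.sum_range _
    simp only [s1]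
    rw [h7]
    congr 1
    refine lintegral_congr fun x => ?_
    have s2 : ∑ i : Fin N, ψ (u i) * Real.exp (ω (u i) x) = ∑ i : Fin N, φ (u i) *
        Real.exp (ω (u i) x + -(q * cv r μ ε (dst c (u i) 0))) := by
      refine Finset.sum_congr rfl fun i _ => ?_
      rw [hψe _ (hu i), Real.exp_add]
      ring
    rw [s2]
  -- equality of the two laws
  have hmφ := hmm φ hφ
  have hmψ := hmm ψ hψm
  have hfin1 : IsFiniteMeasure ((P.withDensity g).map (mass φ ω)) := by
    have : IsFiniteMeasure (P.withDensity g) := isFiniteMeasure_withDensity hgi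
    infer_instance
  have hfin2 : IsFiniteMeasure (K • P.map (mass ψ ω)) := Measure.smul_finite _ hKtop
  have hlaw : (P.withDensity g).map (mass φ ω) = K • P.map (mass ψ ω) := by
    refine ext_of_forall_lintegral_eq_of_IsFiniteMeasure fun f => ?_
    have hfm : Measurable fun z : ℝ => (f z : ℝ≥0∞) :=
      measurable_coe_nnreal_ennreal.comp f.continuous.measurable
    rw [lintegral_smul_measure, lintegral_map hfm hmφ, lintegral_map hfm hmψ]
    exact (lintegral_withDensity_eq_lintegral_mul _ hg (hfm.comp hmφ)).trans (key f)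
  have hq : Measurable fun z : ℝ => ENNReal.ofReal (z ^ q) := by fun_prop
  have h8 : ∫⁻ x, g x * ENNReal.ofReal (mass φ ω x ^ q) ∂P =
      K * ∫⁻ x, ENNReal.ofReal (mass ψ ω x ^ q) ∂P := by
    have h9 : ∫⁻ z, ENNReal.ofReal (z ^ q) ∂((P.withDensity g).map (mass φ ω)) =
        ∫⁻ z, ENNReal.ofReal (z ^ q) ∂(K • P.map (mass ψ ω)) := by rw [hlaw]
    rw [lintegral_smul_measure, lintegral_map hq hmφ, lintegral_map hq hmψ] at h9
    exact (lintegral_withDensity_eq_lintegral_mul _ hg (hq.comp hmφ)).symm.trans h9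
  have h10 : ∀ x, mass (fun u => φ u * Real.exp (-(q * cv r μ ε (dst c u 0)))) ω x =
      mass ψ ω x := by
    intro x
    unfold mass
    refine setIntegral_congr_fun measurableSet_Ico fun u hu => ?_
    simp only
    rw [hψe u hu]
  have h11 : ∀ x, ENNReal.ofReal ((∫ u, φ u * Real.exp (ω u x - ω 0 x) ∂ν) ^ q) =
      g x * ENNReal.ofReal (mass φ ω x ^ q) := by
    intro x
    rw [hν]
    have h12 : ∫ u in Ico (0 : ℝ) 1, φ u * Real.exp (ω u x - ω 0 x) =
        Real.exp (-ω 0 x) * mass φ ω x := by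
      unfold mass
      rw [← integral_const_mul]
      refine integral_congr_ae (Eventually.of_forall fun u => ?_)
      simp only
      rw [sub_eq_add_neg, Real.exp_add]
      ring
    have h13 : 0 ≤ mass φ ω x :=
      integral_nonneg fun u => mul_nonneg (hφ0 u) (Real.exp_pos _).le
    rw [h12, Real.mul_rpow (Real.exp_pos _).le h13, ← Real.exp_mul,
      ENNReal.ofReal_mul (Real.exp_pos _).le, hgdef]
    congr 3
    ring
  simp only [h11, h10]
  exact h8

/-- TILT -/
theorem TILT_holds (h1 : St_TILT1) (h2 : St_POSW) (h3 : St_FPSD) : St_TILT := by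
  intro c r μ ε hadm hμ hε hε2 Ω _ P _ ω hF φ hφ hφ0 q
  exact tilt_gen h1 h2 h3 c r μ ε hadm hμ hε hε2 Ω P ω hF φ hφ.measurable (fun u => (hφ0 u).le)
    ((isCompact_Icc (a := (0 : ℝ)) (b := 1)).exists_bound_of_continuousOn hφ.continuousOn) q

/-- TILT2 -/
theorem TILT2_holds (h1 : St_TILT1) (h2 : St_POSW) (h3 : St_FPSD) : St_TILT2 := by
  intro c r μ ε hadm hμ hε hε2 Ω _ P _ ω hF φ hφ q
  obtain ⟨a, ha, hl⟩ := hφ.low
  obtain ⟨b, hb⟩ := hφ.up
  have h0 : ∀ u, 0 ≤ φ u := fun u => ha.le.trans (hl u)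
  exact tilt_gen h1 h2 h3 c r μ ε hadm hμ hε hε2 Ω P ω hF φ hφ.meas h0
    ⟨b, fun u _ => by rw [Real.norm_eq_abs, abs_of_nonneg (h0 u)]; exact hb u⟩ q

end

end Pool.Agent.L5helper15.CG
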